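import Pool.Agent.H20.ProjTransfer
import Pool.Agent.H95.DT.CodC

/-!
# Two-transitive subgroups of `PGL(d + 1, F)` with an element fixing a subspace of codimension two

For every infinite commutative field `F` and every `d ≥ 1`, a subgroup `G` of `PGL(d + 1, F)`
contains `PSL(d + 1, F)` if and only if it is two-transitive on the points of `PG(d, F)` and
contains a nonidentity element which fixes every point of some linear subspace of codimension at
most two.

All notions are those of Mathlib: `Matrix.ProjGenLinGroup (Fin (d + 1)) F` is `GL` modulo its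
centre, `ℙ F (Fin (d + 1) → F)` is the set of one-dimensional subspaces (points), and
`Matrix.ProjectiveSpecialLinearGroup.toPGL` is the natural embedding of `PSL` in `PGL`.

The result for elements fixing a hyperplane pointwise is due to helper20
(`Pool.Agent.H20.ProjTwoTrans`).
-/

namespace Pool.Agent.Results.MP_c32cfc_al.CodimTwo

open Pool.Agent.H20.ProjTwoTrans Pool.Agent.H95.DT Module Matrix
open scoped LinearAlgebra.Projectivization MatrixGroups

/-- A nonidentity element of `G` fixing every point of a subspace of codimension at most two gives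
a nonzero map `N` of rank at most two with `1 + N` in the linear group. -/
lemma linear_of_fix {F : Type*} [Field F] {d : ℕ} (hd : 4 ≤ d)
    {G : Subgroup (PGL(Fin (d + 1), F))} (hG : TwoTrans (lift G))
    {g : PGL(Fin (d + 1), F)} (hg : g ∈ G) (hg1 : g ≠ 1)
    {W : Submodule F (Fin (d + 1) → F)} (hW : d ≤ finrank F W + 1)
    (hfix : ∀ p : ℙ F (Fin (d + 1) → F), p.submodule ≤ W → g • p = p) :
    ∃ N : (Fin (d + 1) → F) →ₗ[F] (Fin (d + 1) → F), In (lift G) N ∧ N ≠ 0 ∧
      finrank F (LinearMap.range N) ≤ 2 := by
  obtain ⟨A, rfl⟩ := ProjGenLinGroup.mk_surjective g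
  -- `lin A` maps every vector of `W` to a multiple of itself
  have h1 : ∀ v ∈ W, ∃ c : F, lin A v = c • v := by
    intro v hv
    by_cases hv0 : v = 0
    · exact ⟨0, by simp [hv0]⟩
    · have := hfix (Projectivization.mk F v hv0) (by
        rw [Projectivization.submodule_mk, Submodule.span_singleton_le_iff_mem]; exact hv)
      rw [smul_mk_eq_iff] at this
      obtain ⟨c, -, hc⟩ := this
      exact ⟨c, hc⟩
  have hmap : ∀ v ∈ W, (lin A : (Fin (d + 1) → F) →ₗ[F] (Fin (d + 1) → F)) v ∈ W := by
    intro v hv
    obtain ⟨c, hc⟩ := h1 v hv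
    have : (lin A : (Fin (d + 1) → F) →ₗ[F] (Fin (d + 1) → F)) v = c • v := hc
    rw [this]
    exact W.smul_mem c hv
  obtain ⟨c, hc⟩ : ∃ c : F, ∀ v ∈ W, lin A v = c • v := by
    obtain ⟨a, ha⟩ := LinearMap.exists_eq_smul_id_of_forall_notLinearIndependent
      (f := (lin A : (Fin (d + 1) → F) →ₗ[F] (Fin (d + 1) → F)).restrict hmap) (by
        rintro ⟨v, hv⟩ hcon
        obtain ⟨c, hc⟩ := h1 v hv
        rw [LinearIndependent.pair_iff] at hcon
        have := hcon (-c) 1 (by
          apply Subtype.ext
          simp [LinearMap.restrict_apply, hc])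
        exact one_ne_zero this.2)
    refine ⟨a, fun v hv => ?_⟩
    have := congrArg (fun f => ((f ⟨v, hv⟩ : W) : Fin (d + 1) → F)) ha
    simpa [LinearMap.restrict_apply] using this
  -- the scalar is nonzero
  have hWne : ∃ v ∈ W, v ≠ 0 := by
    have : Nontrivial W := by
      rw [← Module.finrank_pos_iff (R := F)]
      omega
    obtain ⟨w, hw⟩ := exists_ne (0 : W)
    exact ⟨w, w.2, fun h => hw (Subtype.ext h)⟩
  have hc0 : c ≠ 0 := by
    rintro rfl
    obtain ⟨v, hv, hv0⟩ := hWne
    have := hc v hv
    rw [zero_smul] at this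
    exact hv0 ((lin A).map_eq_zero_iff.mp this)
  obtain ⟨z, hz, ez⟩ := hG.scalar c⁻¹ (inv_ne_zero hc0)
  set N : (Fin (d + 1) → F) →ₗ[F] (Fin (d + 1) → F) :=
    ((z * lin A : (Fin (d + 1) → F) ≃ₗ[F] (Fin (d + 1) → F)) :
      (Fin (d + 1) → F) →ₗ[F] (Fin (d + 1) → F)) - LinearMap.id with hN
  have hNa : ∀ x, N x = c⁻¹ • lin A x - x := by
    intro x
    rw [hN, LinearMap.sub_apply, LinearEquiv.coe_coe, apply_mul, ez, LinearMap.id_apply]
  refine ⟨N, ⟨z * lin A, (lift G).mul_mem hz ((mem_lift A).mpr hg), fun x => ?_⟩, ?_, ?_⟩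
  · rw [hNa, apply_mul, ez]; abel
  · intro h
    have hall : ∀ x, lin A x = c • x := by
      intro x
      have h2 := hNa x
      rw [h, LinearMap.zero_apply] at h2
      have h3 : c⁻¹ • lin A x = x := sub_eq_zero.1 h2.symm
      conv_rhs => rw [← h3]
      rw [smul_smul, mul_inv_cancel₀ hc0, one_smul]
    apply hg1
    rw [ProjGenLinGroup.mk_eq_one, Matrix.GeneralLinearGroup.center_eq_range_scalar]
    refine ⟨Units.mk0 c hc0, ?_⟩
    apply lin.injective
    ext1 x
    rw [hall, lin_apply]
    ext i
    simp [Matrix.GeneralLinearGroup.coe_scalar]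
  · have hle : W ≤ LinearMap.ker N := by
      intro x hx
      rw [LinearMap.mem_ker, hNa, hc x hx, smul_smul, inv_mul_cancel₀ hc0, one_smul, sub_self]
    have h2 := LinearMap.finrank_range_add_finrank_ker N
    have h3 := Submodule.finrank_mono hle
    have h4 : finrank F (Fin (d + 1) → F) = d + 1 := by simp
    omega

/-- For every infinite commutative field `F` and every `d ≥ 1`, a subgroup of `PGL(d + 1, F)`
contains `PSL(d + 1, F)` exactly when it is two-transitive on the points of `PG(d, F)` and some
nonidentity element of it fixes every point of a linear subspace `W` of `F ^ (d + 1)` of codimension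
at most two. -/
theorem result {F : Type*} [Field F] [Infinite F] (d : ℕ) (hd : 1 ≤ d)
    (G : Subgroup (Matrix.ProjGenLinGroup (Fin (d + 1)) F)) :
    (MulAction.IsMultiplyPretransitive G (ℙ F (Fin (d + 1) → F)) 2 ∧
        ∃ g ∈ G, g ≠ 1 ∧ ∃ W : Submodule F (Fin (d + 1) → F), d ≤ finrank F W + 1 ∧
          ∀ p : ℙ F (Fin (d + 1) → F), p.submodule ≤ W → g • p = p) ↔
      (Matrix.ProjectiveSpecialLinearGroup.toPGL (n := Fin (d + 1)) (R := F)).range ≤ G := by
  constructor
  · rintro ⟨h, g, hg, hg1, W, hW, hfix⟩
    have hG := twoTrans_lift h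
    apply psl_le_of_all
    rcases Nat.lt_or_ge d 4 with h4 | h4
    · obtain rfl | rfl | rfl : d = 1 ∨ d = 2 ∨ d = 3 := by omega
      · exact all_T_of_two (by simp) hG
      · have h3 : finrank F (Fin (2 + 1) → F) = 3 := by simp
        obtain ⟨f, v, hf, hv, hT⟩ := exists_perspectivity_of_three h3 hG
        have h0 := hasNontrivialT_of_perspectivity (by omega) hG hf hv hT
        exact all_T_of_three_le (by omega) hG h0
      · have h4 : finrank F (Fin (3 + 1) → F) = 4 := by simp
        obtain ⟨f, v, hf, hv, hT⟩ := exists_perspectivity_of_four h4 hG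
        have h0 := hasNontrivialT_of_perspectivity (by omega) hG hf hv hT
        exact all_T_of_three_le (by omega) hG h0
    · have hfr : finrank F (Fin (d + 1) → F) = d + 1 := by simp
      obtain ⟨N, hN, hN0, hr⟩ := linear_of_fix h4 hG hg hg1 hW hfix
      obtain ⟨f, v, hf, hv, hT⟩ := exists_perspectivity_of_rank_two (by omega) hG hN hN0 hr
      have h0 := hasNontrivialT_of_perspectivity (by omega) hG hf hv hT
      exact all_T_of_three_le (by omega) hG h0
  · intro h
    refine ⟨twoTrans_of_psl_le h, ?_⟩
    obtain ⟨e, rfl⟩ : ∃ e, d = e + 1 := ⟨d - 1, by omega⟩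
    have h01 : (0 : Fin (e + 1 + 1)) ≠ 1 := by simp
    set t : SpecialLinearGroup (Fin (e + 1 + 1)) F := SpecialLinearGroup.transvection h01 1 with ht
    refine ⟨SpecialLinearGroup.toPGL t, h ⟨(t : ProjectiveSpecialLinearGroup _ F), rfl⟩, ?_, ?_⟩
    · intro h1
      have h2 : t ∈ (SpecialLinearGroup.toPGL (n := Fin (e + 1 + 1)) (R := F)).ker := h1
      rw [SpecialLinearGroup.toPGL_ker, ht, SpecialLinearGroup.transvection_mem_center_iff] at h2
      exact one_ne_zero h2
    · refine ⟨LinearMap.ker (crd (F := F) (1 : Fin (e + 1 + 1))), ?_, ?_⟩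
      · have h1 := LinearMap.finrank_range_add_finrank_ker (crd (F := F) (1 : Fin (e + 1 + 1)))
        have h2 : LinearMap.range (crd (F := F) (1 : Fin (e + 1 + 1))) = ⊤ := by
          rw [LinearMap.range_eq_top]
          intro c
          exact ⟨Pi.single 1 c, by simp [crd]⟩
        rw [h2] at h1
        simp at h1
        omega
      · intro p
        induction p using Projectivization.ind with
        | _ v hv =>
          intro hp
          rw [Projectivization.submodule_mk, Submodule.span_singleton_le_iff_mem,
            LinearMap.mem_ker] at hp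
          have hp' : v 1 = 0 := hp
          have h3 : (SpecialLinearGroup.toPGL t : PGL(Fin (e + 1 + 1), F)) •
              Projectivization.mk F v hv = Projectivization.mk F v hv := by
            change (ProjGenLinGroup.mk (SpecialLinearGroup.toGL t) : PGL(Fin (e + 1 + 1), F)) •
              Projectivization.mk F v hv = Projectivization.mk F v hv
            rw [smul_mk_eq_iff]
            refine ⟨1, one_ne_zero, ?_⟩
            rw [lin_apply]
            have h4 : ((SpecialLinearGroup.toGL t : GL (Fin (e + 1 + 1)) F) :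
              Matrix (Fin (e + 1 + 1)) (Fin (e + 1 + 1)) F) = 1 + Matrix.single 0 1 1 := rfl
            rw [h4, Matrix.add_mulVec, Matrix.one_mulVec, Matrix.single_mulVec_eq, hp']
            simp
          exact h3

end Pool.Agent.Results.MP_c32cfc_al.CodimTwo
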