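import Pool.Agent.H20.ProjTransfer
import Pool.Agent.H95.D4.Five

/-!
# Two-transitive subgroups of `PGL(5, F)`

Let `F` be an infinite commutative field such that every polynomial of degree three over `F` has a
root in `F` (for example the field of real numbers, the field of complex numbers, every real
closed field and every algebraically closed field).  A subgroup `G` of `PGL(5, F)` is
two-transitive on the points of the projective space `PG(4, F)` if and only if it contains
`PSL(5, F)`.

All notions are those of Mathlib: `Matrix.ProjGenLinGroup (Fin 5) F` is `GL` modulo its
centre, `ℙ F (Fin 5 → F)` is the set of one-dimensional subspaces (points), and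
`Matrix.ProjectiveSpecialLinearGroup.toPGL` is the natural embedding of `PSL` in `PGL`.
-/

namespace Pool.Agent.Results.MP_c32cfc_al.DimensionFour

open Pool.Agent.H20.ProjTwoTrans Module
open scoped LinearAlgebra.Projectivization

/-- For every infinite commutative field `F` over which every polynomial of degree three has a
root, a subgroup of `PGL(5, F)` is two-transitive on the points of `PG(4, F)` exactly when it
contains `PSL(5, F)`. -/
theorem result {F : Type*} [Field F] [Infinite F]
    (hF : ∀ p : Polynomial F, p.natDegree = 3 → ∃ a, p.IsRoot a)
    (G : Subgroup (Matrix.ProjGenLinGroup (Fin 5) F)) :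
    MulAction.IsMultiplyPretransitive G (ℙ F (Fin 5 → F)) 2 ↔
      (Matrix.ProjectiveSpecialLinearGroup.toPGL (n := Fin 5) (R := F)).range ≤ G := by
  constructor
  · intro h
    have hG := twoTrans_lift h
    apply psl_le_of_all
    have h5 : finrank F (Fin 5 → F) = 5 := by simp
    obtain ⟨f, v, hf, hv, hT⟩ := Pool.Agent.H95.D4.exists_perspectivity_of_five hF h5 hG
    have h0 := hasNontrivialT_of_perspectivity (by omega) hG hf hv hT
    exact all_T_of_three_le (by omega) hG h0
  · exact twoTrans_of_psl_le

end Pool.Agent.Results.MP_c32cfc_al.DimensionFour
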