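import Pool.Agent.H20.ProjTransfer
import Pool.Agent.H95.DT.Four

/-!
# Two-transitive subgroups of `PGL(2, F)`, `PGL(3, F)` and `PGL(4, F)`

For every infinite commutative field `F` and `1 ≤ d ≤ 3`, a subgroup `G` of `PGL(d + 1, F)` is
two-transitive on the points of the projective space `PG(d, F)` if and only if it contains
`PSL(d + 1, F)`.  (For `d = 3` the infinity of the field is needed: the alternating group of
degree seven is two-transitive on the points of `PG(3, 2)`.)

All notions are those of Mathlib: `Matrix.ProjGenLinGroup (Fin (d + 1)) F` is `GL` modulo its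
centre, `ℙ F (Fin (d + 1) → F)` is the set of one-dimensional subspaces (points), and
`Matrix.ProjectiveSpecialLinearGroup.toPGL` is the natural embedding of `PSL` in `PGL`.

The cases `d = 1, 2` are in `Pool.Agent.H20.ProjTwoTrans`, the case `d = 3` is in
`Pool.Agent.H95.DT`.
-/

namespace Pool.Agent.Results.MP_c32cfc_al.LowDimensions

open Pool.Agent.H20.ProjTwoTrans Module
open scoped LinearAlgebra.Projectivization

/-- For every infinite commutative field `F` and every `d` with `1 ≤ d ≤ 3`, a subgroup of
`PGL(d + 1, F)` is two-transitive on the points of `PG(d, F)` exactly when it contains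
`PSL(d + 1, F)`. -/
theorem result {F : Type*} [Field F] [Infinite F] (d : ℕ) (hd1 : 1 ≤ d) (hd3 : d ≤ 3)
    (G : Subgroup (Matrix.ProjGenLinGroup (Fin (d + 1)) F)) :
    MulAction.IsMultiplyPretransitive G (ℙ F (Fin (d + 1) → F)) 2 ↔
      (Matrix.ProjectiveSpecialLinearGroup.toPGL (n := Fin (d + 1)) (R := F)).range ≤ G := by
  constructor
  · intro h
    have hG := twoTrans_lift h
    apply psl_le_of_all
    obtain rfl | rfl | rfl : d = 1 ∨ d = 2 ∨ d = 3 := by omega
    · exact all_T_of_two (by simp) hG
    · have h3 : finrank F (Fin (2 + 1) → F) = 3 := by simp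
      obtain ⟨f, v, hf, hv, hT⟩ := exists_perspectivity_of_three h3 hG
      have h0 := hasNontrivialT_of_perspectivity (by omega) hG hf hv hT
      exact all_T_of_three_le (by omega) hG h0
    · have h4 : finrank F (Fin (3 + 1) → F) = 4 := by simp
      obtain ⟨f, v, hf, hv, hT⟩ := Pool.Agent.H95.DT.exists_perspectivity_of_four h4 hG
      have h0 := hasNontrivialT_of_perspectivity (by omega) hG hf hv hT
      exact all_T_of_three_le (by omega) hG h0
  · exact twoTrans_of_psl_le

end Pool.Agent.Results.MP_c32cfc_al.LowDimensions
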