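import Pool.Agent.H20.ProjTransfer
import Pool.Agent.H3.WildRec

/-!
# Two-transitive subgroups of `PGL(d + 1, F)` without perspectivities, `d ≥ 5`

For every field `F` of infinite transcendence degree over its prime field (for instance every
uncountable field) and every `d ≥ 5` there are subgroups of `PGL(d + 1, F)` which are
two-transitive on the points of `PG(d, F)` but which do not contain `PSL(d + 1, F)`. In fact every
group generated by fewer than `|F|` elements, all of whose nonidentity elements have small fixed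
point sets, is contained in such a two-transitive group.
-/

namespace Pool.Agent.Results.MP_c32cfc_al.WildExamples

open Pool.Agent.H20.ProjTwoTrans Pool.Agent.H3.Wild Module Matrix
open scoped LinearAlgebra.Projectivization MatrixGroups

/-- Every subspace of `F ^ m` all of whose points are fixed by `g ∈ PGL(m, F)` has codimension at
least four. -/
def FixesOnlySmall {F : Type*} [Field F] {m : ℕ} (g : PGL(Fin m, F)) : Prop :=
  ∀ W : Submodule F (Fin m → F),
    (∀ p : ℙ F (Fin m → F), p.submodule ≤ W → g • p = p) → Module.finrank F W + 4 ≤ m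

lemma good_of_fixesOnlySmall {F : Type*} [Field F] {m : ℕ} {A : GL (Fin m) F}
    (h : FixesOnlySmall (ProjGenLinGroup.mk A)) : Good A.val := by
  intro c W hc
  apply h W
  intro p hp
  induction p using Projectivization.ind with | _ v hv
  rw [Projectivization.submodule_mk, Submodule.span_singleton_le_iff_mem] at hp
  refine (smul_mk_eq_iff A hv hv).mpr ⟨c, ?_, hc v hp⟩
  rintro rfl
  have h1 : lin A v = 0 := by
    rw [lin_apply, hc v hp, zero_smul]
  exact hv ((lin A).map_eq_zero_iff.mp h1)

lemma fixesOnlySmall_of_good {F : Type*} [Field F] {m : ℕ} {A : GL (Fin m) F}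
    (h : Good A.val) : FixesOnlySmall (ProjGenLinGroup.mk A) := by
  intro W hW
  -- `A` maps every vector of `W` to a multiple of itself
  have h1 : ∀ v ∈ W, ∃ c : F, lin A v = c • v := by
    intro v hv
    by_cases hv0 : v = 0
    · exact ⟨0, by simp [hv0]⟩
    · have := hW (Projectivization.mk F v hv0) (by
        rw [Projectivization.submodule_mk, Submodule.span_singleton_le_iff_mem]; exact hv)
      obtain ⟨c, -, hc⟩ := (smul_mk_eq_iff A hv0 hv0).mp this
      exact ⟨c, hc⟩
  have hmap : ∀ v ∈ W, (lin A : (Fin m → F) →ₗ[F] (Fin m → F)) v ∈ W := by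
    intro v hv
    obtain ⟨c, hc⟩ := h1 v hv
    have : (lin A : (Fin m → F) →ₗ[F] (Fin m → F)) v = c • v := hc
    rw [this]
    exact W.smul_mem c hv
  obtain ⟨c, hc⟩ : ∃ c : F, ∀ v ∈ W, lin A v = c • v := by
    obtain ⟨a, ha⟩ := LinearMap.exists_eq_smul_id_of_forall_notLinearIndependent
      (f := (lin A : (Fin m → F) →ₗ[F] (Fin m → F)).restrict hmap) (by
        rintro ⟨v, hv⟩ hcon
        obtain ⟨c, hc⟩ := h1 v hv
        rw [LinearIndependent.pair_iff] at hcon
        have := hcon (-c) 1 (by
          apply Subtype.ext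
          simp [LinearMap.restrict_apply, hc])
        exact one_ne_zero this.2)
    refine ⟨a, fun v hv => ?_⟩
    have := congrArg (fun f => ((f ⟨v, hv⟩ : W) : Fin m → F)) ha
    simpa [LinearMap.restrict_apply] using this
  exact h c W hc

theorem result {F : Type*} [Field F]
    (hF : ∃ x : ℕ → F, AlgebraicIndependent (⊥ : Subfield F) x) (d : ℕ) (hd : 5 ≤ d)
    (S : Set (PGL(Fin (d + 1), F))) (hS : Cardinal.mk S < Cardinal.mk F)
    (hSF : ∀ g ∈ Subgroup.closure S, g ≠ 1 → FixesOnlySmall g) :
    ∃ G : Subgroup (PGL(Fin (d + 1), F)), Subgroup.closure S ≤ G ∧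
      MulAction.IsMultiplyPretransitive G (ℙ F (Fin (d + 1) → F)) 2 ∧
      ¬ (Matrix.ProjectiveSpecialLinearGroup.toPGL (n := Fin (d + 1)) (R := F)).range ≤ G ∧
      ∀ g ∈ G, g ≠ 1 → FixesOnlySmall g := by
  -- lift the generators
  let rep : PGL(Fin (d + 1), F) → GL (Fin (d + 1)) F :=
    Function.surjInv ProjGenLinGroup.mk_surjective
  have hrep : ∀ g, ProjGenLinGroup.mk (rep g) = g := Function.surjInv_eq _
  let S₀ : Set (GL (Fin (d + 1)) F) := rep '' S
  have hS₀ : Cardinal.mk S₀ < Cardinal.mk F := Cardinal.mk_image_le.trans_lt hS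
  have hmapS : (Subgroup.closure S₀).map (ProjGenLinGroup.mk : GL (Fin (d + 1)) F →* _) =
      Subgroup.closure S := by
    rw [MonoidHom.map_closure]
    congr 1
    ext g
    constructor
    · rintro ⟨_, ⟨s, hs, rfl⟩, rfl⟩
      rw [hrep]
      exact hs
    · intro hg
      exact ⟨rep g, ⟨g, hg, rfl⟩, hrep g⟩
  have hg₀ : GoodGroup (Subgroup.closure S₀) := by
    intro A hA hA1
    apply good_of_fixesOnlySmall
    apply hSF
    · rw [← hmapS]
      exact ⟨A, hA, rfl⟩
    · rwa [Ne, ProjGenLinGroup.mk_eq_one]
  obtain ⟨G, hle0, hgood, htrans⟩ := exists_good_group (n := d + 1) hF (by omega) S₀ hS₀ hg₀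
  have main : ∀ g ∈ G.map (ProjGenLinGroup.mk : GL (Fin (d + 1)) F →* _), g ≠ 1 →
      FixesOnlySmall g := by
    rintro _ ⟨A, hA, rfl⟩ hA1
    exact fixesOnlySmall_of_good
      (hgood A hA (by rwa [Ne, ProjGenLinGroup.mk_eq_one] at hA1))
  refine ⟨G.map (ProjGenLinGroup.mk : GL (Fin (d + 1)) F →* _), ?_, ?_, ?_, main⟩
  · rw [← hmapS]
    exact Subgroup.map_mono hle0
  · rw [MulAction.is_two_pretransitive_iff]
    intro p q p' q' hpq hpq'
    induction p using Projectivization.ind with | _ v hv
    induction q using Projectivization.ind with | _ w hw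
    induction p' using Projectivization.ind with | _ v' hv'
    induction q' using Projectivization.ind with | _ w' hw'
    obtain ⟨A, hA, e1, e2⟩ := htrans v w v' w' ((pair_ne_iff hv hw).mp hpq)
      ((pair_ne_iff hv' hw').mp hpq')
    refine ⟨⟨ProjGenLinGroup.mk A, A, hA, rfl⟩, ?_, ?_⟩
    · exact (smul_mk_eq_iff A hv hv').mpr ⟨1, one_ne_zero, by rw [one_smul]; exact e1⟩
    · exact (smul_mk_eq_iff A hw hw').mpr ⟨1, one_ne_zero, by rw [one_smul]; exact e2⟩
  · intro hle
    -- a transvection
    have h01 : (0 : Fin (d + 1)) ≠ Fin.last d := by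
      intro h
      have := congrArg Fin.val h
      simp at this
      omega
    let t : TransvectionStruct (Fin (d + 1)) F := ⟨0, Fin.last d, h01, 1⟩
    let T : GL (Fin (d + 1)) F := SpecialLinearGroup.toGL t.toSpecialLinearGroup
    have hT : ∀ v : Fin (d + 1) → F, T.val *ᵥ v = v + Pi.single 0 (v (Fin.last d)) := by
      intro v
      have h1 : T.val = 1 + Matrix.single 0 (Fin.last d) 1 := rfl
      rw [h1, Matrix.add_mulVec, Matrix.one_mulVec, Matrix.single_mulVec_eq]
      congr 1
      ext k
      simp [Pi.single_apply]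
    have hTmem : (ProjGenLinGroup.mk T : PGL(Fin (d + 1), F)) ∈
        G.map (ProjGenLinGroup.mk : GL (Fin (d + 1)) F →* _) :=
      hle ⟨QuotientGroup.mk t.toSpecialLinearGroup, rfl⟩
    have hTne : (ProjGenLinGroup.mk T : PGL(Fin (d + 1), F)) ≠ 1 := by
      intro h
      have h2 : (ProjGenLinGroup.mk T : PGL(Fin (d + 1), F)) •
          Projectivization.mk F (Pi.single (Fin.last d) 1 : Fin (d + 1) → F)
            (by simp) = Projectivization.mk F (Pi.single (Fin.last d) 1 : Fin (d + 1) → F)
            (by simp) := by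
        rw [h, one_smul]
      rw [smul_mk_eq_iff] at h2
      obtain ⟨c, -, hc⟩ := h2
      rw [lin_apply, hT] at hc
      have h3 := congrFun hc 0
      simp [Pi.single_apply, h01, h01.symm] at h3
    have := main _ hTmem hTne (LinearMap.ker (LinearMap.proj (R := F) (Fin.last d))) (by
      intro p hp
      induction p using Projectivization.ind with | _ v hv
      rw [Projectivization.submodule_mk, Submodule.span_singleton_le_iff_mem] at hp
      refine (smul_mk_eq_iff T hv hv).mpr ⟨1, one_ne_zero, ?_⟩
      rw [lin_apply, hT, one_smul]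
      have : v (Fin.last d) = 0 := hp
      rw [this, Pi.single_zero, add_zero])
    have h4 := LinearMap.finrank_range_add_finrank_ker
      (LinearMap.proj (R := F) (φ := fun _ : Fin (d + 1) => F) (Fin.last d))
    rw [Module.finrank_fintype_fun_eq_card, Fintype.card_fin] at h4
    have h5 : finrank F (LinearMap.range
        (LinearMap.proj (R := F) (φ := fun _ : Fin (d + 1) => F) (Fin.last d))) ≤ 1 := by
      have := Submodule.finrank_le (LinearMap.range
        (LinearMap.proj (R := F) (φ := fun _ : Fin (d + 1) => F) (Fin.last d)))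
      rwa [Module.finrank_self] at this
    omega

end Pool.Agent.Results.MP_c32cfc_al.WildExamples
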